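import Pool.Agent.H96wcg.Main
import Pool.Agent.H96wcg.Wcg

set_option autoImplicit false

namespace Pool.Agent.Results.MP_40d550_an.WCGGurarii

universe u

/-- A normed space `E` is a Gurarii space: for all finite-dimensional normed spaces `Y`, subspaces
`P` of `Y`, isometric embeddings `f : P → E` and `ε > 0` there is a linear `g : Y → E` extending
`f` with `(1 + ε)⁻¹ ‖y‖ ≤ ‖g y‖ ≤ (1 + ε) ‖y‖` for all `y`. -/
def IsGurarii (E : Type) [NormedAddCommGroup E] [NormedSpace ℝ E] : Prop :=
  ∀ (Y : Type u) [NormedAddCommGroup Y] [NormedSpace ℝ Y] [FiniteDimensional ℝ Y]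
    (P : Submodule ℝ Y) (f : P →ₗᵢ[ℝ] E) (ε : ℝ), 0 < ε →
    ∃ g : Y →ₗ[ℝ] E, (∀ y, (1 + ε)⁻¹ * ‖y‖ ≤ ‖g y‖ ∧ ‖g y‖ ≤ (1 + ε) * ‖y‖) ∧
      ∀ x : P, g x = f x

/-- A normed space is weakly compactly generated: some weakly compact set has dense linear
span. -/
def IsWCG (E : Type) [NormedAddCommGroup E] [NormedSpace ℝ E] : Prop :=
  ∃ W : Set E, IsCompact (toWeakSpace ℝ E '' W) ∧ Dense (Submodule.span ℝ W : Set E)

/-- There is a non-separable Gurarii space which is weakly compactly generated. -/
theorem result : ∃ (E : Type) (_ : NormedAddCommGroup E) (_ : NormedSpace ℝ E)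
    (_ : CompleteSpace E),
    IsGurarii.{u} E ∧ IsWCG E ∧ ¬ TopologicalSpace.SeparableSpace E := by
  open Pool.Agent.H96wcg in
  have hclosed : IsClosed (X : Set Amb) := Submodule.isClosed_topologicalClosure _
  refine ⟨X, inferInstance, inferInstance, hclosed.completeSpace_coe, ?_, ?_, ?_⟩
  · intro Y _ _ _ P f ε hε
    exact gurarii P f hε
  · refine wcg_abstract (fun c : C => c.1) ev ?_ ?_
    · intro n t ht r hr
      have h4 : ((∑ c ∈ t, r c • ev c : X) : Amb) = io (∑ c ∈ t, r c • Finsupp.single c 1) := by
        rw [map_sum, Submodule.coe_sum]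
        refine Finset.sum_congr rfl fun c _ => ?_
        rw [map_smul]
        rfl
      change ‖((∑ c ∈ t, r c • ev c : X) : Amb)‖ ≤ 1
      rw [h4]
      exact level_bound n t ht r hr
    · intro x
      rw [Metric.mem_closure_iff]
      intro η hη
      obtain ⟨y, ⟨v, rfl⟩, hv⟩ := Metric.mem_closure_iff.1 x.2 η hη
      refine ⟨v.sum fun c a => a • ev c, ?_, ?_⟩
      · exact Submodule.sum_mem _ fun c _ => Submodule.smul_mem _ _
          (Submodule.subset_span ⟨c, rfl⟩)
      · have h1 : ((v.sum fun c a => a • ev c : X) : Amb) = io v := by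
          conv_rhs => rw [← Finsupp.sum_single v]
          rw [Finsupp.sum, Finsupp.sum, map_sum, Submodule.coe_sum]
          refine Finset.sum_congr rfl fun c _ => ?_
          have : Finsupp.single c (v c) = v c • Finsupp.single c (1 : ℝ) := by
            simp
          rw [this, map_smul]
          rfl
        change dist (x : Amb) ((v.sum fun c a => a • ev c : X) : Amb) < η
        rw [h1]
        exact hv
  · intro hsep
    have hunc : ¬ (Set.univ : Set ℝ).Countable := Cardinal.not_countable_real
    apply hunc
    have hd : ∀ y z : ℝ, y ≠ z → 1 ≤ dist (ev (0, y)) (ev (0, z)) := by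
      intro y z hyz
      have h1 := le_norm_io (Finsupp.single (0, y) 1 - Finsupp.single (0, z) 1) (0, y)
      have h2 : F (0, y) (Finsupp.single (0, y) 1 - Finsupp.single (0, z) 1) = 1 := by
        have h3 : ∀ v, F (0, y) v = v (0, y) := by
          intro v
          by_cases hv : Val (0, y)
          · rw [F_of_val hv, Finset.sum_eq_zero, add_zero]
            intro d hd
            exact absurd (hv.1 d hd) (Nat.not_lt_zero _)
          · exact F_of_not_val hv v
        rw [h3]
        simp [Ne.symm hyz]
      rw [h2, abs_one, map_sub] at h1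
      rw [dist_eq_norm]
      exact h1
    have hex : ∀ y : ℝ, ∃ n : ℕ, dist (ev (0, y)) (TopologicalSpace.denseSeq X n) < 1 / 2 :=
      fun y => Metric.denseRange_iff.1 (TopologicalSpace.denseRange_denseSeq X) _ _ (by norm_num)
    choose n hn using hex
    have hinj : Function.Injective n := by
      intro y z hyz
      by_contra hne
      have h1 := hd y z hne
      have h2 := dist_triangle_right (ev (0, y)) (ev (0, z)) (TopologicalSpace.denseSeq X (n y))
      have h3 := hn y
      have h4 := hn z
      rw [← hyz] at h4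
      linarith
    exact Set.countable_univ_iff.2 hinj.countable

end Pool.Agent.Results.MP_40d550_an.WCGGurarii
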